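import Pool.Agent.T6helper6.CP.Defs

/-!
# Consequences of the motivic t-structure over the algebraic closure of a finite field
-/

set_option autoImplicit false
set_option linter.unusedSectionVars false
set_option linter.unusedSimpArgs false
set_option backward.isDefEq.respectTransparency false
set_option backward.defeqAttrib.useBackward true

open CategoryTheory Limits MonoidalCategory Pretriangulated Triangulated ZeroObject
open scoped Polynomial

namespace Pool.Agent.T6helper6.CP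

open Pool.Agent.Y116.MT Pool.Agent.V1178.MT Pool.Agent.T6helper6.MT Pool.Agent.T6helper6.FF
  Pool.Agent.T6helper6.AF Pool.Agent.T6helper6.SM

universe v u w

section

variable {D : Type u} [Category.{v} D] [Preadditive D] [HasZeroObject D] [HasShift D ℤ]
  [∀ n : ℤ, (shiftFunctor D n).Additive] [Pretriangulated D] [MonoidalCategory D]
  [SymmetricCategory D] [TensorTriangulated D] [MonoidalPreadditive D] [RightRigidCategory D]
  [Linear ℚ D] {Λ : Type*} {E : Λ → Type w} [∀ l, Field (E l)] [∀ l, CharZero (E l)]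
  {R : ∀ l, Realisation D (E l)} {l₀ : Λ} {P : D → Prop} {T : D}

lemma pe_id {X : D} (q : ℚ[X]) : pe (𝟙 X) q = q.eval 1 • 𝟙 X := by
  induction q using Polynomial.induction_on' with
  | add p q hp hq => rw [pe_add, hp, hq, Polynomial.eval_add, add_smul]
  | monomial n c =>
    induction n with
    | zero => rw [Polynomial.monomial_zero_left, pe_C, Polynomial.eval_C]
    | succ n ih =>
      rw [← Polynomial.monomial_mul_X, pe_mul, pe_X, Category.id_comp, ih, Polynomial.eval_mul,
        Polynomial.eval_X, mul_one]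

lemma H_zero_of_shift {E₀ : Type w} [Field E₀] (R₀ : Realisation D E₀) {X Y : D} {f : X ⟶ Y}
    (hf : R₀.H.map (f⟦(0 : ℤ)⟧') = 0) : R₀.H.map f = 0 := by
  have h5 : f⟦(0 : ℤ)⟧' = (shiftFunctorZero D ℤ).hom.app _ ≫ f ≫
        (shiftFunctorZero D ℤ).inv.app _ := shiftZero' (A := ℤ) (f := f)
  rw [h5, Functor.map_comp, Functor.map_comp] at hf
  rw [← cancel_epi (R₀.H.map ((shiftFunctorZero D ℤ).hom.app X)),
      ← cancel_mono (R₀.H.map ((shiftFunctorZero D ℤ).inv.app Y)), Category.assoc, hf,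
      comp_zero, zero_comp]

lemma H_shift_of_zero {E₀ : Type w} [Field E₀] (R₀ : Realisation D E₀) {X Y : D} {f : X ⟶ Y}
    (hf : R₀.H.map f = 0) : R₀.H.map (f⟦(0 : ℤ)⟧') = 0 := by
  have h5 : f⟦(0 : ℤ)⟧' = (shiftFunctorZero D ℤ).hom.app _ ≫ f ≫
        (shiftFunctorZero D ℤ).inv.app _ := shiftZero' (A := ℤ) (f := f)
  rw [h5, Functor.map_comp, Functor.map_comp, hf, zero_comp, comp_zero]

variable (h : IsChow (R l₀) P T) (hF : FrobeniusWeights (R l₀) P) (hi : Injectivity R l₀ P)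

include h

/-- Faithfulness on Chow motives with cohomology in one degree. -/
lemma faithful_one (hi : Injectivity R l₀ P) {L : D} (hL : P L) {w : ℤ}
    (dL : ∀ l, (R l).Deg L w) (g : L ⟶ L) (hg : ∀ i : ℤ, (R l₀).H.map (g⟦i⟧') = 0) : g = 0 := by
  apply eq_zero_of_nm
  rw [← cancel_mono ((shiftFunctorZero D ℤ).inv.app (L ⊗ Lᘁ)), zero_comp]
  apply hi (L ⊗ Lᘁ) 0 (h.tensor hL (h.dual hL)) (fun l => by simpa using deg_hom (dL l) (dL l)) 0
    le_rfl le_rfl
  rw [Functor.map_comp, nm, Functor.map_comp, H_whisker_zero g hg, comp_zero, zero_comp]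

include hF in
/-- Vanishing by the weights of Frobenius. -/
lemma van_weight (hi : Injectivity R l₀ P) {L : D} (hL : P L) {w : ℤ}
    (dL : ∀ l, (R l).Deg L w) (hw : w ≠ 0) (n : ℤ) (f : 𝟙_ D ⟶ L⟦n⟧) : f = 0 := by
  obtain ⟨φ, h1, h2⟩ := hF L hL n f
  obtain ⟨q, hq, hk⟩ := h2 w hw
  have h3 : pe φ q = 0 := by
    apply faithful_one h hi hL dL
    intro i
    by_cases hiw : i = w
    · subst hiw
      rw [shift_pe]
      apply ModuleCat.hom_ext
      rw [H_pe]
      exact hk
    · exact (dL l₀ i hiw).eq_of_src _ _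
  have h4 : f ≫ pe (φ⟦n⟧') q = pe (𝟙 _) q ≫ f := pe_natural (by rw [h1, Category.id_comp]) q
  rw [← shift_pe, h3, Functor.map_zero, comp_zero, pe_id, Linear.smul_comp, Category.id_comp] at h4
  have h5 := congrArg (fun z => (q.eval 1)⁻¹ • z) h4
  simpa [smul_smul, inv_mul_cancel₀ hq] using h5.symm

include hF in
/-- All morphisms `𝟙 ⟶ L⟦n⟧` vanish if `L` is a Chow motive in degree `w` and `n` or `w` is nonzero. -/
lemma van (hi : Injectivity R l₀ P) {L : D} (hL : P L) {w : ℤ}
    (dL : ∀ l, (R l).Deg L w) {n : ℤ} (hn : n ≠ 0 ∨ w ≠ 0) (f : 𝟙_ D ⟶ L⟦n⟧) : f = 0 := by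
  by_cases hw : w = 0
  · subst hw
    rcases lt_trichotomy n 0 with h1 | h1 | h1
    · apply hi L 0 hL dL n h1.le h1.le
      have h2 : IsZero ((R l₀).H.obj (L⟦n⟧)) := dL l₀ n h1.ne
      exact h2.eq_of_tgt _ _
    · omega
    · exact h.positive h.one hL n h1 f
  · exact van_weight h hF hi hL dL hw n f

include hF in
lemma van_pair (hi : Injectivity R l₀ P) {L N : D} {a b : ℤ} (hL : P L) (hN : P N)
    (dL : ∀ l, (R l).Deg L a) (dN : ∀ l, (R l).Deg N b) {m : ℤ} (hne : m ≠ 0 ∨ b - a ≠ 0)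
    (g : L ⟶ N⟦m⟧) : g = 0 := by
  apply eq_zero_of_nm
  rw [← cancel_mono (lShift N Lᘁ m).hom, zero_comp]
  exact van h hF hi (h.tensor hN (h.dual hL)) (fun l => deg_hom (dL l) (dN l)) hne _

include hF in
/-- There are no extensions in any nonzero degree between Chow motives shifted to degree zero. -/
lemma van_ht (hi : Injectivity R l₀ P) {X Y : D} (hX : Ht R P X) (hY : Ht R P Y) {n : ℤ}
    (hn : n ≠ 0) (f : X ⟶ Y⟦n⟧) : f = 0 := by
  obtain ⟨dX, a, hX⟩ := hX
  obtain ⟨dY, b, hY⟩ := hY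
  apply (shiftFunctor D a).map_injective
  rw [Functor.map_zero, ← cancel_mono ((shiftFunctorAdd' D n a (n + a) rfl).inv.app Y),
    ← cancel_mono ((shiftFunctorAdd' D b (n + a - b) (n + a) (by omega)).hom.app Y), zero_comp,
    zero_comp]
  exact van_pair h hF hi hX hY (fun l => deg_of_ht dX l) (fun l => deg_of_ht dY l) (by omega) _

include hF in
/-- Pieces of different degrees are orthogonal. -/
lemma van_q (hi : Injectivity R l₀ P) {X Y : D} {b c : ℤ} (hX : Ht R P (X⟦b⟧))
    (hY : Ht R P (Y⟦c⟧)) (hbc : b ≠ c) (f : X ⟶ Y) : f = 0 := by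
  apply (shiftFunctor D b).map_injective
  rw [Functor.map_zero, ← cancel_mono ((shiftFunctorAdd' D c (b - c) b (by omega)).hom.app Y),
    zero_comp]
  exact van_ht h hF hi hX hY (by omega) _

variable (hk : ChowKunneth R P) (hn : HomEqNum (R l₀) P)

lemma ht_one : Ht R P (𝟙_ D) :=
  ⟨fun _ => deg_unit, 0, P_iso' h h.one ((shiftFunctorZero D ℤ).symm.app _)⟩

/-- An endomorphism of the unit which is zero in cohomology is zero. -/
lemma unit_faithful (e : 𝟙_ D ⟶ 𝟙_ D) (he : (R l₀).H.map e = 0) : e = 0 := by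
  obtain ⟨q, rfl⟩ := h.unit_scalar e
  by_cases hq : q = 0
  · rw [hq, zero_smul]
  · exact absurd he (scalar_ne_zero (R l₀) hq)

include hF in
/-- The connecting maps of the filtrations are zero. -/
lemma conn_zero (hi : Injectivity R l₀ P) {b : ℤ} {Z : D}
    (hZ : SM.FilQ (fun b X => Ht R P (X⟦b⟧)) b Z) : ∀ {c : ℤ} {K : D}, c < b → Ht R P (K⟦c⟧) →
    ∀ f : Z ⟶ K, f = 0 := by
  induction hZ with
  | zero hz => intro c K _ _ f; exact hz.eq_of_src _ _
  | @step a b X L Z u v w h1 h2 h3 h4 ih =>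
    intro c K hc hK f
    obtain ⟨l, hl⟩ := ye2 h2 f (van_q h hF hi h3 hK (by omega) _)
    rw [hl, ih (by omega) hK l, comp_zero]

include hF hi hk hn

/-- The properties of all objects: the realisation is faithful on morphisms from the unit, and every
nonzero morphism to the unit is detected by a morphism from the unit. -/
lemma all_objects [IsTriangulated D] [IsIdempotentComplete D] (X : D) :
    (∀ f : 𝟙_ D ⟶ X, (R l₀).H.map f = 0 → f = 0) ∧
    ∀ f : X ⟶ 𝟙_ D, f ≠ 0 → ∃ g : 𝟙_ D ⟶ X, g ≫ f ≠ 0 := by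
  have hc := ht_class h (vanishing_of_injectivity h hi) (homNum_of_homEqNum hi hn)
  obtain ⟨X', a, i, r, hir, hX'⟩ := SM.rd_of_gen hc (gen_all h hk X)
  have key : (∀ f : 𝟙_ D ⟶ X', (R l₀).H.map f = 0 → f = 0) ∧
      ∀ f : X' ⟶ 𝟙_ D, f ≠ 0 → ∃ g : 𝟙_ D ⟶ X', g ≫ f ≠ 0 := by
    clear hir
    clear i r
    induction hX' with
    | zero hz => exact ⟨fun f _ => hz.eq_of_tgt _ _, fun f hf => absurd (hz.eq_of_src _ _) hf⟩
    | @step a b X K Z u v w h1 h2 h3 h4 ih =>
      have h0 : w = 0 := conn_zero h hF hi h4 (c := b - 1) (by omega)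
        ((SM.semi hc).shift h3 1 (b - 1) (by omega)) w
      obtain ⟨s, t, hs, ht, hts, htot⟩ := FF.split_iso h2 h0
      -- the two statements for `K`
      have hK : (∀ f : 𝟙_ D ⟶ K, (R l₀).H.map f = 0 → f = 0) ∧
          ∀ f : K ⟶ 𝟙_ D, f ≠ 0 → ∃ g : 𝟙_ D ⟶ K, g ≫ f ≠ 0 := by
        have h5 : Ht R P ((𝟙_ D)⟦(0 : ℤ)⟧) := SM.S_iso hc (ht_one h) ((shiftFunctorZero D ℤ).symm.app _)
        by_cases hb : b = 0
        · subst hb
          have h6 : Ht R P K := SM.S_iso hc h3 ((shiftFunctorZero D ℤ).app _)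
          refine ⟨fun f hf => ?_, fun f hf => ?_⟩
          · obtain ⟨g, hg⟩ := hc.regular (ht_one h) h6 f
            have h7 : f ≫ g = 0 := unit_faithful h _ (by rw [Functor.map_comp, hf, zero_comp])
            rw [← hg, reassoc_of% h7, zero_comp]
          · obtain ⟨g, hg⟩ := hc.regular h6 (ht_one h) f
            refine ⟨g, fun h7 => hf ?_⟩
            rw [← hg, h7, comp_zero]
        · exact ⟨fun f _ => van_q h hF hi h5 h3 (Ne.symm hb) f,
            fun f hf => absurd (van_q h hF hi h3 h5 hb f) hf⟩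
      refine ⟨fun f hf => ?_, fun f hf => ?_⟩
      · have h5 : f ≫ s = 0 := hK.1 _ (by rw [Functor.map_comp, hf, zero_comp])
        have h6 : f ≫ v = 0 := ih.1 _ (by rw [Functor.map_comp, hf, zero_comp])
        rw [← Category.comp_id f, ← htot, Preadditive.comp_add, reassoc_of% h5, reassoc_of% h6,
          zero_comp, zero_comp, add_zero]
      · by_cases h5 : u ≫ f = 0
        · have h6 : t ≫ f ≠ 0 := by
            intro h7
            apply hf
            rw [← Category.id_comp f, ← htot, Preadditive.add_comp, Category.assoc, Category.assoc,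
              h5, h7, comp_zero, comp_zero, add_zero]
          obtain ⟨g, hg⟩ := ih.2 _ h6
          exact ⟨g ≫ t, by rwa [Category.assoc]⟩
        · obtain ⟨g, hg⟩ := hK.2 _ h5
          exact ⟨g ≫ u, by rwa [Category.assoc]⟩
  refine ⟨fun f hf => ?_, fun f hf => ?_⟩
  · have h1 : f ≫ i = 0 := key.1 _ (by rw [Functor.map_comp, hf, zero_comp])
    rw [← Category.comp_id f, ← hir, reassoc_of% h1, zero_comp]
  · obtain ⟨g, hg⟩ := key.2 (r ≫ f) (fun h1 => hf (by
      rw [← Category.id_comp f, ← hir, Category.assoc, h1, comp_zero]))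
    exact ⟨g ≫ r, by rwa [Category.assoc]⟩

end

end Pool.Agent.T6helper6.CP
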