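import Pool.Agent.T6helper6.CP.Main

/-!
# In characteristic `p` the motivic t-structure exists over all fields if and only if it exists over
the algebraic closure of the prime field

`C i`, `i : ι`, are idempotent complete rigid `ℚ`-linear tensor triangulated categories with
realisations with coefficients in fields of characteristic zero. The case in point: `ι` is a set of
fields `K` of characteristic `p` which contains the algebraic closure `k` of the prime field,
`C K = DM_c(K)`, `i₀ = k`, the realisations are the `l`-adic ones for the primes `l ≠ p`, and `P K`
are the Chow motives. The hypotheses are known theorems in this case.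
* `IsChow`: as in the hand-in `AnyField` (de Jong, Voevodsky, Deligne).
* `FrobeniusWeights`: a Chow motive `M` over `k` and a morphism `𝟙 ⟶ M⟦n⟧` are defined over some finite
  field, and the eigenvalues of Frobenius on `H^w(M)`, `w ≠ 0`, are different from `1`, with
  characteristic polynomials with rational coefficients (Deligne, Katz-Messing).
* `HasModels`: every morphism of `DM_c(K)` comes from a variety `U` over a finite field (continuity),
  with a point `s` over `k`, and there are the direct image from `U_k` to `k`, its adjunction and its
  base change to `s`. The realisations of dualizable motives over `U` are lisse. For one prime `l₀`,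
  the `l₀`-adic complex of a family of Chow motives over `U_k` is a direct sum of shifts of
  semisimple lisse sheaves (Deligne).

Theorem. The t-structure which is motivic for all realisations exists on all `C i` if and only if
it exists on `C i₀`.

So the question for all fields of characteristic `p` is equivalent to the question for the one field
`k`. By the hand-in `FiniteFields` it is then a question on smooth projective varieties over finite
fields: Parshin's conjecture and Beilinson's conjecture on rational and numerical equivalence. The
Tate conjecture is not used.

Steps of the proof. Over `k`: by the weights of Frobenius and the t-structure there are no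
morphisms of nonzero degree between Chow motives shifted to degree zero. So every object is a
direct sum of shifts of Chow motives, the realisation is faithful on morphisms from the unit, and
every nonzero `X ⟶ 𝟙` has a section up to a factor. Over `K`: let `X`, `Y` be motives over `U`, and let
`e : s(X) ⟶ s(Y)` be a morphism over `k` whose class in the cohomology of the fibre extends to `U_k`.
Let `Z` be the cone of `push X Y ⟶ s(Y) ⊗ s(X)ᘁ`. The name of `e` becomes zero in the cohomology of `Z`,
so it is zero in `Z`, and `e` extends to a morphism over `U_k`. So the Künneth components of the
fibre, which are algebraic over `k`, extend to `K` up to nilpotent endomorphisms, and they can be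
lifted to idempotents (Murre's conjecture A over `K`). The realisation with values in the
`l`-adic complexes over `U_k` is faithful, so that in low degrees the realisation over `K` is
injective (Murre's conjectures B and D and the conjecture of Beilinson and Soulé). For a morphism
`f : 𝟙 ⟶ M` which is nonzero in cohomology the form `g ↦ tr(f g)` on the direct image is nonzero by the
semisimplicity of the lisse sheaves, and since it is a morphism over `k` there is an algebraic `g`
with `tr(f g) ≠ 0` (Grothendieck's standard conjecture D over `K`). Now the criterion of `AnyField`
applies.
-/

set_option autoImplicit false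

open CategoryTheory Limits MonoidalCategory Pretriangulated Triangulated

universe v u w

namespace Pool.Agent.Results.MP_6d0ce9_ag.CharacteristicP

open Pool.Agent.Y116.MT Pool.Agent.T6helper6.AF Pool.Agent.T6helper6.CP

/-- In characteristic `p` the motivic t-structure exists over all fields if and only if it exists
over the algebraic closure of the prime field. -/
theorem result {ι : Type*} {C : ι → Type u} [∀ i, Category.{v} (C i)] [∀ i, Preadditive (C i)]
    [∀ i, HasZeroObject (C i)] [∀ i, HasShift (C i) ℤ]
    [∀ (i : ι) (n : ℤ), (shiftFunctor (C i) n).Additive] [∀ i, Pretriangulated (C i)]
    [∀ i, IsTriangulated (C i)] [∀ i, MonoidalCategory (C i)] [∀ i, SymmetricCategory (C i)]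
    [∀ i, TensorTriangulated (C i)] [∀ i, MonoidalPreadditive (C i)]
    [∀ i, RightRigidCategory (C i)] [∀ i, IsIdempotentComplete (C i)] [∀ i, Linear ℚ (C i)]
    {Λ : Type*} {E : Λ → Type w} [∀ l, Field (E l)] [∀ l, CharZero (E l)]
    (R : ∀ (i : ι) (l : Λ), Realisation (C i) (E l)) (l₀ : Λ) (P : ∀ i, C i → Prop)
    (T : ∀ i, C i) (i₀ : ι) (h : ∀ i, IsChow (R i l₀) (P i) (T i))
    (hF : FrobeniusWeights (R i₀ l₀) (P i₀))
    (hM : ∀ i, HasModels (R i) (R i₀) l₀ (P i) (P i₀)) :
    (∀ i, ∃ t : TStructure (C i), IsMotivic t (R i)) ↔
      ∃ t : TStructure (C i₀), IsMotivic t (R i₀) := by
  refine ⟨fun ht => ht i₀, ?_⟩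
  rintro ⟨t, hm⟩ i
  have hk := chowKunneth (h i₀) hm
  exact exists_motivic_K (all_objects (h i₀) hF (injectivity (h i₀) hm) hk (homEqNum (h i₀) hm))
    (h i) (hM i) (h i₀) hk

end Pool.Agent.Results.MP_6d0ce9_ag.CharacteristicP
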