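import Pool.Agent.T6helper6.AF.Forth

/-!
# Motives over a field `K` and their specialisations to the algebraic closure of a finite field
-/

set_option autoImplicit false

open CategoryTheory Limits MonoidalCategory Pretriangulated Triangulated ZeroObject
open scoped Polynomial

namespace Pool.Agent.T6helper6.CP

open Pool.Agent.Y116.MT Pool.Agent.V1178.MT Pool.Agent.T6helper6.MT Pool.Agent.T6helper6.FF
  Pool.Agent.T6helper6.AF

universe v u w

/-- The powers of an endomorphism. -/
def npow {A : Type u} [Category.{v} A] {X : A} (f : X ⟶ X) : ℕ → (X ⟶ X)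
  | 0 => 𝟙 X
  | n + 1 => f ≫ npow f n

/-- The linear form `g ↦ tr (f ≫ g)` on the morphisms `g : Y ⟶ X`. -/
def coPair {D : Type u} [Category.{v} D] [MonoidalCategory D] [SymmetricCategory D]
    [RightRigidCategory D] {X Y : D} (f : X ⟶ Y) : X ⊗ Yᘁ ⟶ 𝟙_ D :=
  X ◁ fᘁ ≫ (β_ X Xᘁ).hom ≫ ε_ X Xᘁ

section

variable {D : Type u} [Category.{v} D] [Preadditive D] [HasZeroObject D] [HasShift D ℤ]
  [∀ n : ℤ, (shiftFunctor D n).Additive] [Pretriangulated D] [MonoidalCategory D]
  [SymmetricCategory D] [TensorTriangulated D] {E₀ : Type w} [Field E₀]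

/-- The cohomology `H^m`. -/
def Hm (R₀ : Realisation D E₀) (m : ℤ) : D ⥤ ModuleCat.{w} E₀ := shiftFunctor D m ⋙ R₀.H

/-- The weights of Frobenius over the algebraic closure of a finite field. A Chow motive `M` and a
morphism `f : 𝟙 ⟶ M⟦n⟧` are defined over some finite field, the Frobenius endomorphism `φ` of `M` over
this field fixes `f`, and it is annihilated on `H^w(M)`, `w ≠ 0`, by a polynomial with rational
coefficients (the characteristic polynomial) which does not have the zero `1`. -/
def FrobeniusWeights [CharZero E₀] (R₀ : Realisation D E₀) (P : D → Prop) : Prop :=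
  ∀ M : D, P M → ∀ (n : ℤ) (f : 𝟙_ D ⟶ M⟦n⟧), ∃ φ : M ⟶ M, f ≫ φ⟦n⟧' = f ∧
    ∀ w : ℤ, w ≠ 0 → ∃ q : ℚ[X], q.eval 1 ≠ 0 ∧ Kills ((Hm R₀ w).map φ) q

/-- The morphism `f` is zero in cohomology. -/
def IsCohZero (R₀ : Realisation D E₀) {X Y : D} (f : X ⟶ Y) : Prop :=
  ∀ m : ℤ, (Hm R₀ m).map f = 0

/-- The endomorphism `e` is a Künneth component: it is the identity on `H^w` and zero on `H^m` for
`m ≠ w`. -/
def IsKunneth (R₀ : Realisation D E₀) {X : D} (e : X ⟶ X) (w : ℤ) : Prop :=
  ∀ m : ℤ, (Hm R₀ m).map e = if m = w then 𝟙 _ else 0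

end

/-- The direct images of the internal Hom's. Here `U` is the category of dualizable motives over a
geometrically connected variety over a field `F`, with a point `s` over the algebraic closure `k` of
`F`, `D = DM_c(k)`, and `π : U_k ⟶ Spec k` is the structure morphism. -/
structure Images {U : Type u} [Category.{v} U] [Preadditive U] {D : Type u} [Category.{v} D]
    [Preadditive D] [MonoidalCategory D] [RightRigidCategory D] (s : U ⥤ D) where
  /-- the direct image `π_* Hom(X_k, Y_k)` -/
  push (X Y : U) : D
  /-- the restriction to the fibre at `s` -/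
  res (X Y : U) : push X Y ⟶ s.obj Y ⊗ (s.obj X)ᘁ
  /-- the base change to `k`, with the adjunction of `π^*` and `π_*` -/
  adj (X Y : U) : (X ⟶ Y) →+ (𝟙_ D ⟶ push X Y)
  adj_injective (X Y : U) : Function.Injective (adj X Y)
  adj_res {X Y : U} (f : X ⟶ Y) : adj X Y f ≫ res X Y = nm (s.map f)
  /-- the mean value of the Galois conjugates of a morphism over `k` -/
  mean (X Y : U) : (𝟙_ D ⟶ push X Y) → (X ⟶ Y)

/-- The form `g ↦ tr (f g)` on the direct image. -/
def Images.form {U : Type u} [Category.{v} U] [Preadditive U] {D : Type u} [Category.{v} D]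
    [Preadditive D] [MonoidalCategory D] [SymmetricCategory D] [RightRigidCategory D] {s : U ⥤ D}
    (I : Images s) {X Y : U} (f : X ⟶ Y) : I.push Y X ⟶ 𝟙_ D := I.res Y X ≫ coPair (s.map f)

section

variable {D : Type u} [Category.{v} D] [Preadditive D] [HasZeroObject D] [HasShift D ℤ]
  [∀ n : ℤ, (shiftFunctor D n).Additive] [Pretriangulated D] [MonoidalCategory D]
  [SymmetricCategory D] [TensorTriangulated D] [RightRigidCategory D] {E₀ : Type w} [Field E₀]
  {U : Type u} [Category.{v} U] [Preadditive U] {s : U ⥤ D}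

/-- If `H^m(X)` vanishes for `m > 0` and `H^m(Y)` for `m < 0`, morphisms of complexes from `X_k` to `Y_k`
are determined by the map `H^0(X) ⟶ H^0(Y)` of the fibres at `s`. -/
def LowDegrees (R₀ : Realisation D E₀) (I : Images s) : Prop :=
  ∀ X Y : U, (∀ m : ℤ, 0 < m → IsZero ((Hm R₀ m).obj (s.obj X))) →
    (∀ m : ℤ, m < 0 → IsZero ((Hm R₀ m).obj (s.obj Y))) → Mono (R₀.H.map (I.res X Y))

/-- An endomorphism which is zero on the cohomology of the fibre is a nilpotent endomorphism of the
complex. -/
def Nilpotence (R₀ : Realisation D E₀) (I : Images s) : Prop :=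
  ∀ (X : U) (f : X ⟶ X), IsCohZero R₀ (s.map f) →
    ∃ N : ℕ, R₀.H.map (I.adj X X (npow f N)) = 0

/-- Deligne's decomposition: the complex of a family of Chow motives is the direct sum of its
shifted cohomology sheaves, so that the Künneth components in the fibre extend to `U_k`. -/
def Decomposition (R₀ : Realisation D E₀) (I : Images s) (Q : U → Prop) : Prop :=
  ∀ X : U, Q X → ∀ (w : ℤ) (e : s.obj X ⟶ s.obj X), IsKunneth R₀ e w →
    ∃ y : R₀.H.obj (𝟙_ D) ⟶ R₀.H.obj (I.push X X), y ≫ R₀.H.map (I.res X X) = R₀.H.map (nm e)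

/-- Deligne's semisimplicity: a morphism `f` of families of Chow motives which is nonzero on the
cohomology of the fibres has `tr (f g) ≠ 0` for some morphism `g` of complexes over `U_k`. -/
def Semisimplicity (R₀ : Realisation D E₀) (I : Images s) (Q : U → Prop) : Prop :=
  ∀ X Y : U, Q X → Q Y → ∀ f : X ⟶ Y, ¬ IsCohZero R₀ (s.map f) → R₀.H.map (I.form f) ≠ 0

/-- Properties of the `l₀`-adic complexes on `U_k` which are the realisations of motives over `U`. The
class `Q` consists of the families of Chow motives over `U`, `P'` of the Chow motives over `k`. -/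
structure IsLisse (R₀ : Realisation D E₀) (P' : D → Prop) (I : Images s) (Q : U → Prop) :
    Prop where
  chow {X : U} : Q X → P' (s.obj X)
  low : LowDegrees R₀ I
  nilpotent : Nilpotence R₀ I
  decomposition : Decomposition R₀ I Q
  semisimple : Semisimplicity R₀ I Q

/-- Galois conjugation: the Künneth components and the rational numbers `tr (f g)` are
invariant. -/
structure IsMean {Λ : Type*} {E : Λ → Type w} [∀ l, Field (E l)]
    (R' : ∀ l, Realisation D (E l)) (I : Images s) : Prop where
  kunneth {X : U} (g : 𝟙_ D ⟶ I.push X X) (e : s.obj X ⟶ s.obj X) (w : ℤ) :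
    g ≫ I.res X X = nm e → (∀ l, IsKunneth (R' l) e w) →
    ∀ l, IsKunneth (R' l) (s.map (I.mean X X g)) w
  trace {X Y : U} (f : X ⟶ Y) (g : 𝟙_ D ⟶ I.push Y X) :
    I.adj Y X (I.mean Y X g) ≫ I.form f = g ≫ I.form f

end

/-- The morphism `f` is the fibre of a morphism over `U`. The classes `P`, `Q` consist of Chow motives and
families of Chow motives. -/
def IsFibre {U : Type u} [Category.{v} U] {C : Type u} [Category.{v} C] (j : U ⥤ C)
    (Q : U → Prop) (P : C → Prop) {A B : C} (f : A ⟶ B) : Prop :=
  ∃ (X Y : U) (φ : X ⟶ Y) (a : j.obj X ≅ A) (b : j.obj Y ≅ B), j.map φ ≫ b.hom = a.hom ≫ f ∧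
    (P A → Q X) ∧ (P B → Q Y)

section

variable {C : Type u} [Category.{v} C] [Preadditive C] [HasZeroObject C] [HasShift C ℤ]
  [∀ n : ℤ, (shiftFunctor C n).Additive] [Pretriangulated C] [MonoidalCategory C]
  [SymmetricCategory C] [TensorTriangulated C]
  {D : Type u} [Category.{v} D] [Preadditive D] [HasZeroObject D] [HasShift D ℤ]
  [∀ n : ℤ, (shiftFunctor D n).Additive] [Pretriangulated D] [MonoidalCategory D]
  [SymmetricCategory D] [TensorTriangulated D] [RightRigidCategory D]
  {Λ : Type*} {E : Λ → Type w} [∀ l, Field (E l)]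

/-- The dualizable motives over a geometrically connected variety `U` over a field `F` which is
algebraic over a finite field, with a point `s` over the algebraic closure `k` of `F`:
`D = DM_c(k)`, and `C = DM_c(K)` for an extension `K` of the function field of `U`. -/
structure Fibres (R : ∀ l, Realisation C (E l)) (R' : ∀ l, Realisation D (E l)) where
  /-- the motives over the variety `U` -/
  U : Type u
  [cat : Category.{v} U]
  [preadditive : Preadditive U]
  /-- the fibre over `K` -/
  j : U ⥤ C
  /-- the fibre at the point `s` -/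
  s : U ⥤ D
  [additive_j : j.Additive]
  [additive_s : s.Additive]
  /-- the cohomology sheaves are lisse: the fibres over `K` and at `s` have the same cohomology -/
  spec (l : Λ) (m : ℤ) : j ⋙ Hm (R l) m ≅ s ⋙ Hm (R' l) m

attribute [instance] Fibres.cat Fibres.preadditive Fibres.additive_j Fibres.additive_s

/-- A model over a variety `U`. -/
structure Model (R : ∀ l, Realisation C (E l)) (R' : ∀ l, Realisation D (E l)) (l₀ : Λ)
    (P' : D → Prop) extends Fibres R R' where
  /-- the direct images -/
  I : Images s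
  isMean : IsMean R' I
  /-- the families of Chow motives -/
  Q : U → Prop
  isLisse : IsLisse (R' l₀) P' I Q

/-- Every morphism of `C` comes from some model; the Chow motives come from families of Chow
motives. -/
def HasModels (R : ∀ l, Realisation C (E l)) (R' : ∀ l, Realisation D (E l)) (l₀ : Λ)
    (P : C → Prop) (P' : D → Prop) : Prop :=
  ∀ {A B : C} (f : A ⟶ B), ∃ μ : Model R R' l₀ P', IsFibre μ.j μ.Q P f

end

end Pool.Agent.T6helper6.CP
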