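import Pool.Agent.T6helper6.CP.Base

/-!
# From motives over the algebraic closure of a finite field to motives over `K`: Chow-Künneth
decompositions
-/

set_option autoImplicit false
set_option linter.unusedSectionVars false
set_option linter.unusedSimpArgs false
set_option backward.isDefEq.respectTransparency false
set_option backward.defeqAttrib.useBackward true

open CategoryTheory Limits MonoidalCategory Pretriangulated Triangulated ZeroObject
open scoped Polynomial

namespace Pool.Agent.T6helper6.CP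

open Pool.Agent.Y116.MT Pool.Agent.V1178.MT Pool.Agent.T6helper6.MT Pool.Agent.T6helper6.FF
  Pool.Agent.T6helper6.AF Pool.Agent.T6helper6.SM

universe v u v' u' w

section Npow

variable {A : Type u} [Category.{v} A] {B : Type u'} [Category.{v'} B]

lemma npow_id {X : A} (N : ℕ) : npow (𝟙 X) N = 𝟙 X := by
  induction N with
  | zero => rfl
  | succ N ih => rw [npow, ih, Category.comp_id]

lemma map_npow (F : A ⥤ B) {X : A} (f : X ⟶ X) (N : ℕ) : F.map (npow f N) = npow (F.map f) N := by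
  induction N with
  | zero => exact F.map_id X
  | succ N ih => rw [npow, npow, Functor.map_comp, ih]

lemma conj_npow {X Y : A} (a : X ≅ Y) (f : X ⟶ X) (N : ℕ) :
    npow (a.inv ≫ f ≫ a.hom) N = a.inv ≫ npow f N ≫ a.hom := by
  induction N with
  | zero => simp [npow]
  | succ N ih => rw [npow, npow, ih]; simp

lemma pe_pow [Preadditive A] [Linear ℚ A] {X : A} (f : X ⟶ X) (q : ℚ[X]) (N : ℕ) :
    pe f (q ^ N) = npow (pe f q) N := by
  induction N with
  | zero => rw [pow_zero, pe_one]; rfl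
  | succ N ih => rw [pow_succ', pe_mul', ih]; rfl

end Npow

section Sums

variable {D : Type u} [Category.{v} D] [Preadditive D] [HasZeroObject D] [HasShift D ℤ]
  [∀ n : ℤ, (shiftFunctor D n).Additive] [Pretriangulated D] [MonoidalCategory D]
  [SymmetricCategory D] [TensorTriangulated D]
  {Λ : Type*} {E : Λ → Type w} [∀ l, Field (E l)]
  {R : ∀ l, Realisation D (E l)} {P : D → Prop}

/-- The Künneth projectors of a direct sum of objects with cohomology in one degree. -/
lemma sum_projector {X : D} (hX : IsSum R P X) (w : ℤ) : ∃ e : X ⟶ X, ∀ (l : Λ) (m : ℤ),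
    (R l).H.map (e⟦m⟧') = if m = w then 𝟙 _ else 0 := by
  induction hX with
  | @zero X hX =>
    refine ⟨0, fun l m => ?_⟩
    have h1 : IsZero ((R l).H.obj (X⟦m⟧)) := (R l).H.map_isZero (isZero_shift hX m)
    exact h1.eq_of_src _ _
  | @sum X L Y n e0 hL dL _ ih =>
    obtain ⟨e, he⟩ := ih
    have key : ∀ (l : Λ) (m : ℤ), (R l).H.map ((biprod.fst : L ⊞ Y ⟶ L)⟦m⟧') ≫
        (R l).H.map ((biprod.inl : L ⟶ L ⊞ Y)⟦m⟧') +
        (R l).H.map ((biprod.snd : L ⊞ Y ⟶ Y)⟦m⟧') ≫
        (R l).H.map ((biprod.inr : Y ⟶ L ⊞ Y)⟦m⟧') = 𝟙 _ := by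
      intro l m
      rw [← Functor.map_comp, ← Functor.map_comp, ← Functor.map_comp, ← Functor.map_comp,
        ← Functor.map_add, ← Functor.map_add, biprod.total, CategoryTheory.Functor.map_id,
        CategoryTheory.Functor.map_id]
    have hz : ∀ (l : Λ) (m : ℤ), m ≠ n → (R l).H.map ((biprod.fst : L ⊞ Y ⟶ L)⟦m⟧') = 0 :=
      fun l m hm => (dL l m hm).eq_of_tgt _ _
    have hiso : ∀ (l : Λ) (m : ℤ), (R l).H.map (e0.hom⟦m⟧') ≫ (R l).H.map (e0.inv⟦m⟧') = 𝟙 _ := by
      intro l m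
      rw [← Functor.map_comp, ← Functor.map_comp, Iso.hom_inv_id, CategoryTheory.Functor.map_id,
        CategoryTheory.Functor.map_id]
    by_cases hnw : n = w
    · subst hnw
      refine ⟨e0.hom ≫ (biprod.fst ≫ biprod.inl + biprod.snd ≫ e ≫ biprod.inr) ≫ e0.inv,
        fun l m => ?_⟩
      rw [Functor.map_comp, Functor.map_comp, Functor.map_comp, Functor.map_comp, Functor.map_add,
        Functor.map_add, Functor.map_comp, Functor.map_comp, Functor.map_comp, Functor.map_comp,
        Functor.map_comp, Functor.map_comp, he l m]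
      by_cases hm : m = n
      · rw [if_pos hm, if_pos hm, Category.id_comp, key, Category.id_comp, hiso]
      · rw [if_neg hm, if_neg hm, hz l m hm, zero_comp, zero_comp, comp_zero, add_zero, zero_comp,
          comp_zero]
    · refine ⟨e0.hom ≫ (biprod.snd ≫ e ≫ biprod.inr) ≫ e0.inv, fun l m => ?_⟩
      rw [Functor.map_comp, Functor.map_comp, Functor.map_comp, Functor.map_comp, Functor.map_comp,
        Functor.map_comp, Functor.map_comp, Functor.map_comp, he l m]
      by_cases hm : m = w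
      · have h1 := key l m
        rw [hz l m (by omega), zero_comp, zero_add] at h1
        rw [if_pos hm, if_pos hm, Category.id_comp, h1, Category.id_comp, hiso]
      · rw [if_neg hm, if_neg hm, zero_comp, comp_zero, zero_comp, comp_zero]

/-- Uniform boundedness. -/
lemma sum_bounded {X : D} (hX : IsSum R P X) : ∃ N : ℕ, ∀ (l : Λ) (m : ℤ), N < m.natAbs →
    IsZero ((R l).H.obj (X⟦m⟧)) := by
  induction hX with
  | @zero X hX => exact ⟨0, fun l m _ => (R l).H.map_isZero (isZero_shift hX m)⟩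
  | @sum X L Y n e0 hL dL _ ih =>
    obtain ⟨N, hN⟩ := ih
    refine ⟨max N n.natAbs, fun l m hm => ?_⟩
    have h1 := hN l m (by omega)
    have h2 := dL l m (by omega)
    rw [IsZero.iff_id_eq_zero]
    have h3 : 𝟙 ((R l).H.obj (X⟦m⟧)) = (R l).H.map ((e0.hom ≫ ((biprod.fst : L ⊞ Y ⟶ L) ≫
        biprod.inl + (biprod.snd : L ⊞ Y ⟶ Y) ≫ biprod.inr) ≫ e0.inv)⟦m⟧') := by
      rw [biprod.total, Category.id_comp, Iso.hom_inv_id, CategoryTheory.Functor.map_id,
        CategoryTheory.Functor.map_id]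
    rw [h3, Functor.map_comp, Functor.map_comp, Functor.map_comp, Functor.map_comp,
      Functor.map_add, Functor.map_add, Functor.map_comp, Functor.map_comp, Functor.map_comp,
      Functor.map_comp, h2.eq_of_tgt ((R l).H.map ((biprod.fst : L ⊞ Y ⟶ L)⟦m⟧')) 0,
      h1.eq_of_tgt ((R l).H.map ((biprod.snd : L ⊞ Y ⟶ Y)⟦m⟧')) 0, zero_comp, zero_comp, add_zero,
      zero_comp, comp_zero]

end Sums

section Idem

variable {C : Type u} [Category.{v} C] [Preadditive C] [HasZeroObject C] [HasShift C ℤ]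
  [∀ n : ℤ, (shiftFunctor C n).Additive] [Pretriangulated C] [MonoidalCategory C]
  [SymmetricCategory C] [TensorTriangulated C] [MonoidalPreadditive C] [RightRigidCategory C]
  [Linear ℚ C] {Λ : Type*} {E : Λ → Type w} [∀ l, Field (E l)] [∀ l, CharZero (E l)]
  {R : ∀ l, Realisation C (E l)} {P : C → Prop}

lemma neg_one_pow_sq {A : Type*} [Ring A] (N : ℕ) : (-1 : A) ^ N * (-1) ^ N = 1 := by
  rw [← pow_add]
  exact Even.neg_one_pow ⟨N, rfl⟩

/-- Lifting of idempotents. -/
lemma lift_idem {M : C} (a : M ⟶ M) (w : ℤ)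
    (ha : ∀ (l : Λ) (m : ℤ), (R l).H.map (a⟦m⟧') = if m = w then 𝟙 _ else 0) (N : ℕ)
    (hN : npow (a ≫ a - a) N = 0) :
    ∃ b : M ⟶ M, b ≫ b = b ∧
      ∀ (l : Λ) (m : ℤ), (R l).H.map (b⟦m⟧') = if m = w then 𝟙 _ else 0 := by
  have hcop : IsCoprime ((Polynomial.X : ℚ[X]) ^ N) ((Polynomial.X - 1) ^ N) := by
    apply IsCoprime.pow
    exact ⟨1, -1, by ring⟩
  have h0 : pe a ((Polynomial.X : ℚ[X]) ^ N * (Polynomial.X - 1) ^ N) = 0 := by
    rw [← mul_pow]
    have h1 : (Polynomial.X * (Polynomial.X - 1) : ℚ[X]) = Polynomial.X * Polynomial.X -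
      Polynomial.X := by ring
    rw [h1]
    have h2 : pe a (Polynomial.X * Polynomial.X - Polynomial.X : ℚ[X]) = a ≫ a - a := by
      rw [sub_eq_add_neg, pe_add, pe_mul, pe_X]
      have h3 : pe a (-Polynomial.X : ℚ[X]) = -a :=
        (map_neg (Polynomial.aeval (R := ℚ) (A := End M) a) _).trans
          (congrArg Neg.neg (pe_X a))
      rw [h3, sub_eq_add_neg]
    rw [pe_pow, h2, hN]
  obtain ⟨e, he1, he2, he3⟩ := exists_idem hcop h0
  refine ⟨𝟙 M - pe a e, ?_, fun l m => ?_⟩
  · rw [Preadditive.sub_comp, Category.id_comp, Preadditive.comp_sub, Category.comp_id, he1,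
        sub_self, sub_zero]
  · by_cases hm : m = w
    · rw [if_pos hm, Functor.map_sub, Functor.map_sub, CategoryTheory.Functor.map_id,
        CategoryTheory.Functor.map_id]
      have h1 : (R l).H.map ((pe a (Polynomial.X ^ N))⟦m⟧') = 𝟙 _ := by
        rw [shift_pe]
        apply ModuleCat.hom_ext
        rw [H_pe, ha l m, if_pos hm]
        have h2 : (ModuleCat.Hom.hom (𝟙 ((R l).H.obj (M⟦m⟧)))) = (1 : Module.End (E l) _) := rfl
        rw [h2, Polynomial.map_pow, Polynomial.map_X, map_pow, Polynomial.aeval_X, one_pow]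
      have h3 : (R l).H.map ((pe a e)⟦m⟧') = 0 := by
        have h4 := congrArg (fun z => (R l).H.map (z⟦m⟧')) he2
        simp only [Functor.map_comp, Functor.map_zero] at h4
        rwa [h1, Category.comp_id] at h4
      rw [h3, sub_zero]
    · rw [if_neg hm]
      have h1 : (R l).H.map ((pe a ((Polynomial.X - 1) ^ N))⟦m⟧') ≫
          (R l).H.map ((pe a ((Polynomial.X - 1) ^ N))⟦m⟧') = 𝟙 _ := by
        rw [shift_pe]
        apply ModuleCat.hom_ext
        have h2 : (ModuleCat.Hom.hom (0 : (R l).H.obj (M⟦m⟧) ⟶ (R l).H.obj (M⟦m⟧))) =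
          (0 : Module.End (E l) _) := rfl
        rw [ModuleCat.hom_comp, H_pe, ha l m, if_neg hm, h2, Polynomial.map_pow, Polynomial.map_sub,
          Polynomial.map_X, Polynomial.map_one, map_pow, map_sub, Polynomial.aeval_X, map_one,
          zero_sub]
        exact neg_one_pow_sq (A := Module.End (E l) ((R l).H.obj (M⟦m⟧))) N
      have h4 := congrArg (fun z => (R l).H.map (z⟦m⟧')) he3
      simp only [Functor.map_comp, Functor.map_zero] at h4
      rw [← Category.comp_id ((R l).H.map ((𝟙 M - pe a e)⟦m⟧')), ← h1, reassoc_of% h4, zero_comp]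

/-- Splitting off a Künneth component. -/
lemma split_off [IsIdempotentComplete C] (hP : ∀ {M N : C} (i : N ⟶ M) (r : M ⟶ N),
    i ≫ r = 𝟙 N → P M → P N) {M : C} (hM : P M) (b : M ⟶ M) (hb : b ≫ b = b) (w : ℤ)
    (hbw : ∀ (l : Λ) (m : ℤ), (R l).H.map (b⟦m⟧') = if m = w then 𝟙 _ else 0) :
    ∃ (L Y : C) (_ : M ≅ L ⊞ Y), P L ∧ P Y ∧ (∀ l, (R l).Deg L w) ∧
      (∀ l, IsZero ((R l).H.obj (Y⟦w⟧))) ∧
      ∀ (l : Λ) (m : ℤ), IsZero ((R l).H.obj (M⟦m⟧)) → IsZero ((R l).H.obj (Y⟦m⟧)) := by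
  have hb' : (𝟙 M - b) ≫ (𝟙 M - b) = 𝟙 M - b := by
    rw [Preadditive.sub_comp, Category.id_comp, Preadditive.comp_sub, Category.comp_id, hb,
        sub_self, sub_zero]
  obtain ⟨L, i, r, h1, h2⟩ := IsIdempotentComplete.idempotents_split M b hb
  obtain ⟨Y, i', r', h1', h2'⟩ := IsIdempotentComplete.idempotents_split M _ hb'
  have hi : i = i ≫ b := by rw [← h2, reassoc_of% h1]
  have hi' : i' = i' ≫ (𝟙 M - b) := by rw [← h2', reassoc_of% h1']
  have hr : r = b ≫ r := by rw [← h2, Category.assoc, h1, Category.comp_id]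
  have hr' : r' = (𝟙 M - b) ≫ r' := by rw [← h2', Category.assoc, h1', Category.comp_id]
  have hbb : b ≫ (𝟙 M - b) = 0 := by rw [Preadditive.comp_sub, Category.comp_id, hb, sub_self]
  have hbb' : (𝟙 M - b) ≫ b = 0 := by rw [Preadditive.sub_comp, Category.id_comp, hb, sub_self]
  have c1 : i ≫ r' = 0 := by rw [hi, hr', Category.assoc, reassoc_of% hbb, zero_comp, comp_zero]
  have c2 : i' ≫ r = 0 := by rw [hi', hr, Category.assoc, reassoc_of% hbb', zero_comp, comp_zero]
  refine ⟨L, Y, ⟨biprod.lift r r', biprod.desc i i', ?_, ?_⟩, hP i r h1 hM, hP i' r' h1' hM,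
    fun l m hm => ?_, fun l => ?_, fun l m hm => ?_⟩
  · rw [biprod.lift_desc, h2, h2', add_sub_cancel]
  · apply biprod.hom_ext' <;> apply biprod.hom_ext <;>
      simp only [biprod.inl_desc_assoc, biprod.inr_desc_assoc, Category.assoc, biprod.lift_fst,
        biprod.lift_snd, Category.id_comp, Category.comp_id, h1, h1', c1, c2, biprod.inl_fst,
        biprod.inl_snd, biprod.inr_fst, biprod.inr_snd]
  · rw [IsZero.iff_id_eq_zero]
    have h3 : 𝟙 L = i ≫ b ≫ r := by rw [← hr, h1]
    have h4 : 𝟙 ((R l).H.obj (L⟦m⟧)) = (R l).H.map ((𝟙 L)⟦m⟧') := by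
      rw [CategoryTheory.Functor.map_id, CategoryTheory.Functor.map_id]
    rw [h4, h3, Functor.map_comp, Functor.map_comp, Functor.map_comp, Functor.map_comp, hbw,
      if_neg hm, zero_comp, comp_zero]
  · rw [IsZero.iff_id_eq_zero]
    have h3 : 𝟙 Y = i' ≫ (𝟙 M - b) ≫ r' := by rw [← hr', h1']
    have h4 : 𝟙 ((R l).H.obj (Y⟦w⟧)) = (R l).H.map ((𝟙 Y)⟦w⟧') := by
      rw [CategoryTheory.Functor.map_id, CategoryTheory.Functor.map_id]
    have h5 : (R l).H.map ((𝟙 M - b)⟦w⟧') = 0 := by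
      rw [Functor.map_sub, Functor.map_sub, CategoryTheory.Functor.map_id,
        CategoryTheory.Functor.map_id, hbw, if_pos rfl, sub_self]
    rw [h4, h3, Functor.map_comp, Functor.map_comp, Functor.map_comp, Functor.map_comp, h5,
      zero_comp, comp_zero]
  · rw [IsZero.iff_id_eq_zero]
    have h4 : 𝟙 ((R l).H.obj (Y⟦m⟧)) = (R l).H.map (i'⟦m⟧') ≫ (R l).H.map (r'⟦m⟧') := by
      rw [← Functor.map_comp, ← Functor.map_comp, h1', CategoryTheory.Functor.map_id,
        CategoryTheory.Functor.map_id]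
    rw [h4, hm.eq_of_tgt ((R l).H.map (i'⟦m⟧')) 0, zero_comp]

end Idem

end Pool.Agent.T6helper6.CP
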