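import Pool.Agent.T6helper6.CP.Lift

/-!
# From motives over the algebraic closure of a finite field to motives over `K`: the conjectures
-/

set_option autoImplicit false
set_option linter.unusedSectionVars false
set_option linter.unusedSimpArgs false
set_option backward.isDefEq.respectTransparency false
set_option backward.defeqAttrib.useBackward true

open CategoryTheory Limits MonoidalCategory Pretriangulated Triangulated ZeroObject
open scoped Polynomial

namespace Pool.Agent.T6helper6.CP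

open Pool.Agent.Y116.MT Pool.Agent.V1178.MT Pool.Agent.T6helper6.MT Pool.Agent.T6helper6.FF
  Pool.Agent.T6helper6.AF Pool.Agent.T6helper6.SM

universe v u w

section

variable {C : Type u} [Category.{v} C] [Preadditive C] [HasZeroObject C] [HasShift C ℤ]
  [∀ n : ℤ, (shiftFunctor C n).Additive] [Pretriangulated C] [MonoidalCategory C]
  [SymmetricCategory C] [TensorTriangulated C] [MonoidalPreadditive C] [RightRigidCategory C]
  [Linear ℚ C]
  {D : Type u} [Category.{v} D] [Preadditive D] [HasZeroObject D] [HasShift D ℤ]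
  [∀ n : ℤ, (shiftFunctor D n).Additive] [Pretriangulated D] [MonoidalCategory D]
  [SymmetricCategory D] [TensorTriangulated D] [MonoidalPreadditive D] [RightRigidCategory D]
  [Linear ℚ D]
  {Λ : Type*} {E : Λ → Type w} [∀ l, Field (E l)] [∀ l, CharZero (E l)]
  {R : ∀ l, Realisation C (E l)} {R' : ∀ l, Realisation D (E l)} {l₀ : Λ} {P : C → Prop} {T : C}
  {P' : D → Prop} {T' : D}

omit [HasZeroObject D] [Preadditive D] [HasShift D ℤ] [∀ n : ℤ, (shiftFunctor D n).Additive]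
  [Pretriangulated D] [MonoidalPreadditive D] [Linear ℚ D] in
lemma nm_injective {D : Type u} [Category.{v} D] [MonoidalCategory D] [RightRigidCategory D]
    {X Y : D} {f g : X ⟶ Y} (h : nm f = nm g) : f = g := by
  rw [nm_recover f, h, ← nm_recover g]

/-- The two properties of all objects of `D`. -/
def Detects (R' : ∀ l, Realisation D (E l)) (l₀ : Λ) : Prop :=
  ∀ X : D, (∀ f : 𝟙_ D ⟶ X, (R' l₀).H.map f = 0 → f = 0) ∧
    ∀ f : X ⟶ 𝟙_ D, f ≠ 0 → ∃ g : 𝟙_ D ⟶ X, g ≫ f ≠ 0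

variable (μ : Model R R' l₀ P') (hB : Detects R' l₀)

lemma Model.spec_map {X Y : μ.U} (f : X ⟶ Y) (l : Λ) (m : ℤ) :
    (R l).H.map ((μ.j.map f)⟦m⟧') ≫ (μ.spec l m).hom.app Y =
      (μ.spec l m).hom.app X ≫ (R' l).H.map ((μ.s.map f)⟦m⟧') :=
  (μ.spec l m).hom.naturality f

lemma Model.zero_iff {X Y : μ.U} (f : X ⟶ Y) (l : Λ) (m : ℤ) :
    (R l).H.map ((μ.j.map f)⟦m⟧') = 0 ↔ (R' l).H.map ((μ.s.map f)⟦m⟧') = 0 := by
  have h1 := μ.spec_map f l m
  constructor
  · intro h2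
    rw [h2, zero_comp] at h1
    rw [← cancel_epi ((μ.spec l m).hom.app X), ← h1, comp_zero]
  · intro h2
    rw [h2, comp_zero] at h1
    rw [← cancel_mono ((μ.spec l m).hom.app Y), h1, zero_comp]

lemma Model.isZero_iff (X : μ.U) (l : Λ) (m : ℤ) :
    IsZero ((R l).H.obj ((μ.j.obj X)⟦m⟧)) ↔ IsZero ((R' l).H.obj ((μ.s.obj X)⟦m⟧)) :=
  ⟨fun h => h.of_iso ((μ.spec l m).app X).symm, fun h => h.of_iso ((μ.spec l m).app X)⟩

include hB

/-- A morphism of the fibres at `s` extends to `U_k` if its class in the `ℓ`-adic cohomology does. -/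
lemma Model.lift {X Y : μ.U} (e : μ.s.obj X ⟶ μ.s.obj Y)
    (y : (R' l₀).H.obj (𝟙_ D) ⟶ (R' l₀).H.obj (μ.I.push X Y))
    (hy : y ≫ (R' l₀).H.map (μ.I.res X Y) = (R' l₀).H.map (nm e)) :
    ∃ g : 𝟙_ D ⟶ μ.I.push X Y, g ≫ μ.I.res X Y = nm e := by
  obtain ⟨Z, c, d, hT⟩ := distinguished_cocone_triangle (μ.I.res X Y)
  have h0 : μ.I.res X Y ≫ c = 0 := comp_distTriang_mor_zero₁₂ _ hT
  have h1 : nm e ≫ c = 0 := (hB Z).1 _ (by
    rw [Functor.map_comp, ← hy, Category.assoc, ← Functor.map_comp, h0, Functor.map_zero,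
      comp_zero])
  obtain ⟨g, hg⟩ := ce2 hT (nm e) h1
  exact ⟨g, hg.symm⟩

/-- The `ℓ`-adic realisation is faithful on the motives over `U`. -/
lemma Model.eq_zero {X Y : μ.U} (f : X ⟶ Y) (hf : (R' l₀).H.map (μ.I.adj X Y f) = 0) : f = 0 := by
  have h1 := (hB _).1 _ hf
  have h2 : μ.I.adj X Y f = μ.I.adj X Y 0 := by rw [h1, map_zero]
  exact μ.I.adj_injective X Y h2

/-- An endomorphism which is zero on cohomology is nilpotent. -/
lemma Model.nilp {X : μ.U} (f : X ⟶ X) (hf : ∀ m : ℤ, (R' l₀).H.map ((μ.s.map f)⟦m⟧') = 0) :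
    ∃ N : ℕ, npow f N = 0 := by
  obtain ⟨N, hN⟩ := μ.isLisse.nilpotent X f hf
  exact ⟨N, μ.eq_zero hB _ hN⟩

/-- The Künneth projectors of a family of Chow motives, up to nilpotent endomorphisms. -/
lemma Model.projector (hk : ChowKunneth R' P') {X : μ.U} (hX : μ.Q X) (w : ℤ) :
    ∃ (e : X ⟶ X) (N : ℕ), (∀ (l : Λ) (m : ℤ), (R' l).H.map ((μ.s.map e)⟦m⟧') =
      if m = w then 𝟙 _ else 0) ∧
      npow (e ≫ e - e) N = 0 := by
  obtain ⟨ε, hε⟩ := sum_projector (hk _ (μ.isLisse.chow hX)) w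
  obtain ⟨y, hy⟩ := μ.isLisse.decomposition X hX w ε (fun m => hε l₀ m)
  obtain ⟨g, hg⟩ := μ.lift hB ε y hy
  have he : ∀ (l : Λ) (m : ℤ), (R' l).H.map ((μ.s.map (μ.I.mean X X g))⟦m⟧') =
      if m = w then 𝟙 _ else 0 := μ.isMean.kunneth g ε w hg (fun l m => hε l m)
  have h1 : ∀ m : ℤ, (R' l₀).H.map ((μ.s.map (μ.I.mean X X g ≫ μ.I.mean X X g -
      μ.I.mean X X g))⟦m⟧') = 0 := by
    intro m
    rw [Functor.map_sub, Functor.map_comp, Functor.map_sub, Functor.map_sub, Functor.map_comp,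
      Functor.map_comp, he l₀ m]
    by_cases hm : m = w
    · rw [if_pos hm, Category.id_comp, sub_self]
    · rw [if_neg hm, zero_comp, sub_self]
  obtain ⟨N, hN⟩ := μ.nilp hB _ h1
  exact ⟨_, N, he, hN⟩

omit hB

variable (h : IsChow (R l₀) P T) (hmod : HasModels R R' l₀ P P')

include h hmod

include hB in
/-- A Chow motive over `K` without cohomology is zero. -/
lemma zero_of_coh {M : C} (hM : P M) (h0 : ∀ m : ℤ, IsZero ((R l₀).H.obj (M⟦m⟧))) : IsZero M := by
  obtain ⟨μ, X, Y, φ, a, b, -, hX, -⟩ := hmod (𝟙 M)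
  obtain ⟨N, hN⟩ := μ.nilp hB (𝟙 X) (fun m => by
    have h1 : IsZero ((R l₀).H.obj ((μ.j.obj X)⟦m⟧)) :=
      (h0 m).of_iso ((R l₀).H.mapIso ((shiftFunctor C m).mapIso a))
    exact ((μ.isZero_iff X l₀ m).1 h1).eq_of_src _ _)
  have h1 : (𝟙 X) = 0 := by rwa [npow_id] at hN
  rw [IsZero.iff_id_eq_zero]
  have h2 : 𝟙 M = a.inv ≫ μ.j.map (𝟙 X) ≫ a.hom := by
    rw [CategoryTheory.Functor.map_id, Category.id_comp, Iso.inv_hom_id]
  rw [h2, h1, Functor.map_zero, zero_comp, comp_zero]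

include hB in
/-- The Künneth projectors of a Chow motive over `K`. -/
lemma projector (hk : ChowKunneth R' P') {M : C} (hM : P M) (w : ℤ) :
    ∃ b : M ⟶ M, b ≫ b = b ∧
      ∀ (l : Λ) (m : ℤ), (R l).H.map (b⟦m⟧') = if m = w then 𝟙 _ else 0 := by
  obtain ⟨μ, X, Y, φ, a, b, -, hX, -⟩ := hmod (𝟙 M)
  obtain ⟨e, N, he, hN⟩ := μ.projector hB hk (hX hM) w
  refine lift_idem (R := R) (a.inv ≫ μ.j.map e ≫ a.hom) w (fun l m => ?_) N ?_
  · have h1 := μ.spec_map e l m
    rw [he l m] at h1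
    by_cases hm : m = w
    · rw [if_pos hm] at h1
      have h2 : (R l).H.map ((μ.j.map e)⟦m⟧') = 𝟙 _ := by
        rw [← cancel_mono ((μ.spec l m).hom.app X), h1]
        exact (Category.comp_id ((μ.spec l m).hom.app X)).trans (Category.id_comp _).symm
      rw [if_pos hm, Functor.map_comp, Functor.map_comp, Functor.map_comp, Functor.map_comp, h2,
        Category.id_comp, ← Functor.map_comp, ← Functor.map_comp, Iso.inv_hom_id,
        CategoryTheory.Functor.map_id, CategoryTheory.Functor.map_id]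
    · rw [if_neg hm, comp_zero] at h1
      have h2 : (R l).H.map ((μ.j.map e)⟦m⟧') = 0 := by
        rw [← cancel_mono ((μ.spec l m).hom.app X), h1, zero_comp]
      rw [if_neg hm, Functor.map_comp, Functor.map_comp, Functor.map_comp, Functor.map_comp, h2,
        zero_comp, comp_zero]
  · have h1 : (a.inv ≫ μ.j.map e ≫ a.hom) ≫ (a.inv ≫ μ.j.map e ≫ a.hom) -
        a.inv ≫ μ.j.map e ≫ a.hom = a.inv ≫ μ.j.map (e ≫ e - e) ≫ a.hom := by
      simp [Preadditive.comp_sub, Preadditive.sub_comp]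
    rw [h1, conj_npow, ← map_npow, hN, Functor.map_zero, zero_comp, comp_zero]

include hB in
/-- Chow-Künneth decompositions over `K`. -/
lemma chowKunneth_aux [IsIdempotentComplete C] (hk : ChowKunneth R' P') (k : ℕ) :
    ∀ (M : C), P M → ∀ a : ℤ, (∀ (l : Λ) (m : ℤ), ¬ (a ≤ m ∧ m < a + k) →
      IsZero ((R l).H.obj (M⟦m⟧))) → IsSum R P M := by
  induction k with
  | zero =>
    intro M hM a h0
    exact IsSum.zero (zero_of_coh hB h hmod hM (fun m => h0 l₀ m (by push_cast; omega)))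
  | succ k ih =>
    intro M hM a h0
    obtain ⟨b, hb, hb'⟩ := projector hB h hmod hk hM (a + k)
    obtain ⟨L, Y, e, hL, hY, dL, hz, hY0⟩ := split_off (P := P)
      (fun i r hir hM => h.summand i r hir hM) hM b hb (a + k) hb'
    refine IsSum.sum e hL dL (ih Y hY a fun l m hm => ?_)
    by_cases hmk : m = a + k
    · subst hmk
      exact hz l
    · exact hY0 l m (h0 l m (by push_cast; omega))

include hB in
lemma chowKunneth' [IsIdempotentComplete C] (hk : ChowKunneth R' P') : ChowKunneth R P := by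
  intro M hM
  obtain ⟨μ, X, Y, φ, a, b, -, hX, -⟩ := hmod (𝟙 M)
  obtain ⟨N, hN⟩ := sum_bounded (hk _ (μ.isLisse.chow (hX hM)))
  refine chowKunneth_aux hB h hmod hk (2 * N + 1) M hM (-N) fun l m hm => ?_
  have h1 : IsZero ((R' l).H.obj ((μ.s.obj X)⟦m⟧)) := hN l m (by push_cast at hm; omega)
  exact ((μ.isZero_iff X l m).2 h1).of_iso ((R l).H.mapIso ((shiftFunctor C m).mapIso a.symm))

include hB in
/-- Injectivity over `K`. -/
lemma injectivity' : Injectivity R l₀ P := by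
  intro M w hM dM n _ hnw f hf
  obtain ⟨μ, X, Y, φ, a, b, hφ, -, -⟩ := hmod f
  have hX : ∀ m : ℤ, m ≠ 0 → IsZero ((R' l₀).H.obj ((μ.s.obj X)⟦m⟧)) := by
    intro m hm
    apply (μ.isZero_iff X l₀ m).1
    exact (deg_unit m hm : IsZero ((R l₀).H.obj ((𝟙_ C)⟦m⟧))).of_iso
      ((R l₀).H.mapIso ((shiftFunctor C m).mapIso a))
  have hY : ∀ m : ℤ, m < 0 → IsZero ((R' l₀).H.obj ((μ.s.obj Y)⟦m⟧)) := by
    intro m hm
    apply (μ.isZero_iff Y l₀ m).1
    have h1 : IsZero ((R l₀).H.obj (M⟦n⟧⟦m⟧)) :=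
      (dM l₀ (n + m) (by omega)).of_iso ((R l₀).H.mapIso ((shiftFunctorAdd C n m).app M).symm)
    exact h1.of_iso ((R l₀).H.mapIso ((shiftFunctor C m).mapIso b))
  have hm := μ.isLisse.low X Y (fun m hm => hX m (by omega)) hY
  have h1 : ∀ m : ℤ, (R' l₀).H.map ((μ.s.map φ)⟦m⟧') = 0 := by
    intro m
    by_cases hm : m = 0
    · subst hm
      rw [← μ.zero_iff]
      apply H_shift_of_zero
      rw [← cancel_mono ((R l₀).H.map b.hom), ← Functor.map_comp, hφ, Functor.map_comp, hf,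
        comp_zero, zero_comp]
    · exact (hX m hm).eq_of_src _ _
  have h2 : (R' l₀).H.map (nm (μ.s.map φ)) = 0 := by
    rw [nm, Functor.map_comp, H_whisker_zero _ h1, comp_zero]
  have h3 : φ = 0 := by
    apply μ.eq_zero hB
    rw [← cancel_mono ((R' l₀).H.map (μ.I.res X Y)), ← Functor.map_comp, μ.I.adj_res, h2, zero_comp]
  rw [← cancel_epi a.hom, ← hφ, h3, Functor.map_zero, zero_comp, comp_zero]

omit h hmod [Preadditive D] [HasZeroObject D] [HasShift D ℤ]
  [∀ n : ℤ, (shiftFunctor D n).Additive] [Pretriangulated D] [MonoidalPreadditive D]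
  [TensorTriangulated D] [Linear ℚ D] in
lemma nm_coPair {D : Type u} [Category.{v} D] [Preadditive D] [HasZeroObject D] [HasShift D ℤ]
    [∀ n : ℤ, (shiftFunctor D n).Additive] [Pretriangulated D] [MonoidalCategory D]
    [SymmetricCategory D] [TensorTriangulated D] [RightRigidCategory D] {X Y : D} (f : X ⟶ Y)
    (g : Y ⟶ X) : nm g ≫ coPair f = tr (f ≫ g) := by
  rw [nm, coPair, tr, Category.assoc, ← whisker_exchange_assoc,
    ← Category.assoc (η_ Y Yᘁ), coevaluation_comp_rightAdjointMate, comp_whiskerRight]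
  simp only [Category.assoc]

include hB in
/-- Homological and numerical equivalence agree over `K`. -/
lemma homEqNum' (h' : IsChow (R' l₀) P' T') : HomEqNum (R l₀) P := by
  intro M hM f hf
  obtain ⟨μ, X, Y, φ, a, b, hφ, hX, hY⟩ := hmod f
  have h1 : (R' l₀).H.map (μ.I.form φ) ≠ 0 := by
    apply μ.isLisse.semisimple X Y (hX h.one) (hY hM) φ
    intro h0'
    apply hf
    have h0 : (R' l₀).H.map ((μ.s.map φ)⟦(0 : ℤ)⟧') = 0 := h0' 0
    rw [← μ.zero_iff] at h0
    rw [← cancel_epi ((R l₀).H.map a.hom), ← Functor.map_comp, ← hφ, Functor.map_comp,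
      H_zero_of_shift _ h0, zero_comp, comp_zero]
  have h2 : μ.I.form φ ≠ 0 := by
    intro h0
    rw [h0, Functor.map_zero] at h1
    exact h1 rfl
  obtain ⟨g0, hg0⟩ := (hB _).2 _ h2
  rw [← μ.isMean.trace, Images.form, ← Category.assoc, μ.I.adj_res, nm_coPair,
    ← Functor.map_comp] at hg0
  set g := μ.I.mean Y X g0 with hg
  have hdeg : (R' l₀).Deg (μ.s.obj X) 0 := by
    intro m hm
    apply (μ.isZero_iff X l₀ m).1
    exact (deg_unit m hm : IsZero ((R l₀).H.obj ((𝟙_ C)⟦m⟧))).of_iso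
      ((R l₀).H.mapIso ((shiftFunctor C m).mapIso a))
  have h3 : (R' l₀).H.map (μ.s.map (φ ≫ g)) ≠ 0 := by
    intro h0
    obtain ⟨q, hq⟩ := h'.unit_scalar (tr (μ.s.map (φ ≫ g)))
    have h4 := trace_scalar (R := R' l₀) hdeg (μ.s.map (φ ≫ g)) q hq
    have h5 : rho (R' l₀) (μ.s.obj X) (μ.s.map (φ ≫ g)) = 0 := by
      change ((R' l₀).H.map (μ.s.map (φ ≫ g))).hom = 0
      rw [h0]
      rfl
    rw [h5, map_zero] at h4
    have h6 : q = 0 := by
      have h7 := h4.symm
      rwa [map_eq_zero] at h7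
    rw [hq, h6, zero_smul] at hg0
    exact hg0 rfl
  refine ⟨b.inv ≫ μ.j.map g ≫ a.hom, fun h0 => h3 ?_⟩
  have h4 : μ.j.map (φ ≫ g) = 0 := by
    rw [← cancel_mono a.hom, zero_comp, Functor.map_comp, Category.assoc,
      ← Iso.hom_inv_id_assoc b (μ.j.map g ≫ a.hom), ← Category.assoc (μ.j.map φ), hφ,
      Category.assoc, h0, comp_zero]
  apply H_zero_of_shift
  rw [← μ.zero_iff, h4, Functor.map_zero, Functor.map_zero]

include hB in
/-- The t-structure over `K`. -/
theorem exists_motivic_K [IsTriangulated C] [IsIdempotentComplete C] (h' : IsChow (R' l₀) P' T')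
    (hk : ChowKunneth R' P') : ∃ t : TStructure C, IsMotivic t R :=
  AF.exists_t h (chowKunneth' hB h hmod hk) (injectivity' hB h hmod) (homEqNum' hB h hmod h')

end

end Pool.Agent.T6helper6.CP
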